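import Pool.Agent.H93.ES.Targets

/-!
# The long word is covered by samples (MP_c59857_nt, row END)
-/

set_option autoImplicit false

open Finset Pool.Agent.H18.MR Pool.Agent.H93.DE Pool.Agent.H6.N4D Pool.Agent.H93 Pool.Agent.H93.ES

namespace Pool.Agent.H69.ES

/-- the shift which brings a place to a given place of the same class -/
theorem end_idx (D L a u : ℕ) (hD : 0 < D) (hL : 0 < L) (hd : L ∣ D) (ha : a < D) (hu : u < D)
    (h : u % L = a % L) : ∃ i < D / L, (a + i * L) % D = u := by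
  obtain ⟨m, rfl⟩ := hd
  have hm : L * m / L = m := Nat.mul_div_cancel_left m hL
  have hmpos : 0 < m := Nat.pos_of_ne_zero (fun h0 => by simp [h0] at hD)
  have h1 : L ∣ L * m + u - a := by
    have h2 : (L * m + u) % L = a % L := by rw [Nat.mul_add_mod, h]
    exact (Nat.modEq_iff_dvd' (by omega)).1 h2.symm
  obtain ⟨k, hk⟩ := h1
  refine ⟨k % m, ?_, ?_⟩
  · rw [hm]; exact Nat.mod_lt _ hmpos
  · have e1 : k % m * L = (L * m + u - a) % (L * m) := by
      rw [hk, Nat.mul_mod_mul_left, mul_comm]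
    have e2 : a + (L * m + u - a) = L * m + u := by omega
    rw [e1, Nat.add_mod_mod, e2, Nat.add_mod_left, Nat.mod_eq_of_lt hu]

/-- subadditivity -/
theorem end_sub {Ω α β : Type} [Fintype α] [DecidableEq α] [Fintype β] [DecidableEq β]
    (μ : FAP Ω) (X : Ω → α) (Z : Ω → β) :
    ent μ (fun ω => (X ω, Z ω)) ≤ ent μ X + ent μ Z := by
  have h := ent_submod μ X Z (fun _ => ())
  have h0 := ent_nonneg μ (fun _ : Ω => ())
  have h1 : ent μ (fun ω => (X ω, Z ω)) = ent μ (fun ω => (X ω, Z ω, ())) :=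
    ent_congr_inj μ _ _ (fun t => (t.1, t.2, ())) (fun t => (t.1, t.2.1)) (fun _ => rfl)
      (fun _ => rfl)
  have h2 : ent μ X = ent μ (fun ω => (X ω, ())) :=
    ent_congr_inj μ _ _ (fun t => (t, ())) (fun t => t.1) (fun _ => rfl) (fun _ => rfl)
  have h3 : ent μ Z = ent μ (fun ω => (Z ω, ())) :=
    ent_congr_inj μ _ _ (fun t => (t, ())) (fun t => t.1) (fun _ => rfl) (fun _ => rfl)
  rw [h1, h2, h3]
  linarith

/-- the shifted sample -/
def shf {R D : ℕ} [NeZero D] (L : ℕ) (e : Fin R → Fin D) (i : ℕ) : Fin R → Fin D :=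
  fun r => e r + Fin.ofNat D (i * L)

theorem shf_val {R D : ℕ} [NeZero D] (L : ℕ) (e : Fin R → Fin D) (i : ℕ) (r : Fin R) :
    ((shf L e i r : Fin D) : ℕ) = ((e r : ℕ) + i * L) % D := by
  simp [shf, Fin.val_add]

/-- every letter of the long word is a letter of the samples or an extra letter -/
theorem end_letter {N R D L : ℕ} [NeZero N] [NeZero D] (x : ZMod N → Bool) (hL : 0 < L)
    (hd : L ∣ D) (e : Fin R → Fin D) (t : Fin (R * D)) :
    ∃ g : (Fin R → Fin L → Bool) × (Fin (D / L) → Fin L → Fin R → Bool) → Bool, ∀ n : ZMod N,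
      wd x (R * D) n t = g ((fun r s => x (n + ((r * D + s : ℕ) : ZMod N))),
        (fun i => wd (tup x (pos (shf L e i))) L n)) := by
  have hD : 0 < D := Nat.pos_of_ne_zero (NeZero.ne D)
  obtain ⟨t, ht⟩ := t
  have hr : t / D < R := by
    rw [Nat.div_lt_iff_lt_mul hD]; exact ht
  have hs : t % D < D := Nat.mod_lt _ hD
  have ht' : t / D * D + t % D = t := Nat.div_add_mod' t D
  set r : Fin R := ⟨t / D, hr⟩ with hrd
  set a : ℕ := (e r : ℕ) % L with had
  have haL : a < L := Nat.mod_lt _ hL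
  by_cases hsa : t % D < a
  · refine ⟨fun p => p.1 r ⟨t % D, hsa.trans haL⟩, fun n => ?_⟩
    simp only [wd]
    congr 3
    exact ht'.symm
  · rw [not_lt] at hsa
    set u : ℕ := a + L * ((t % D - a) / L) with hu
    have hdm := Nat.div_add_mod (t % D - a) L
    have hml := Nat.mod_lt (t % D - a) hL
    have hu1 : u ≤ t % D := by omega
    have hu2 : t % D - u < L := by omega
    have hu3 : u % L = (e r : ℕ) % L := by
      rw [hu, Nat.add_mul_mod_self_left, had, Nat.mod_mod]
    obtain ⟨i, hi, hiu⟩ := end_idx D L (e r) u hD hL hd (e r).2 (by omega) hu3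
    refine ⟨fun p => p.2 ⟨i, hi⟩ ⟨t % D - u, hu2⟩ r, fun n => ?_⟩
    simp only [wd, tup, pos, shf_val, hiu]
    congr 1
    have e1 : t = (t % D - u) + (t / D * D + u) := by omega
    have e2 : ((t : ℕ) : ZMod N) = ((t % D - u : ℕ) : ZMod N) + ((t / D * D + u : ℕ) : ZMod N) := by
      rw [← Nat.cast_add, ← e1]
    rw [e2]
    simp only [hrd]
    ring

/-- one family of shifts covers the long word -/
theorem end_one (hU : T_UNI) (hF : T_FAM) {N R D L M : ℕ} [NeZero N] [NeZero D]
    (x : ZMod N → Bool) (hM : 0 < M) (hMN : M ∣ N) (hL : 0 < L) (hd : L ∣ D)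
    (e : Fin R → Fin D) :
    hc x (R * D) M ≤ (∑ i : Fin (D / L), hc (tup x (pos (shf L e i))) L M) +
      R * L * Real.log 2 := by
  haveI : NeZero M := ⟨hM.ne'⟩
  choose g hg using fun t => end_letter (N := N) x hL hd e t
  set W : ZMod N → (Fin R → Fin L → Bool) :=
    fun n r s => x (n + ((r * D + s : ℕ) : ZMod N)) with hW
  set F : ZMod N → (Fin (D / L) → Fin L → Fin R → Bool) :=
    fun n i => wd (tup x (pos (shf L e i))) L n with hFd
  have hZ : ent (unif N) (fun n => rs N M n) = Real.log M := (hU.2 N M hMN).2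
  have h1 : ent (unif N) (fun n => (wd x (R * D) n, rs N M n)) ≤
      ent (unif N) (fun n => (W n, F n, rs N M n)) := by
    have h2 := ent_comp_le (unif N) (fun n => (W n, F n, rs N M n))
      (fun p => ((fun t => g t (p.1, p.2.1) : Fin (R * D) → Bool), p.2.2))
    have h3 : (fun n => (wd x (R * D) n, rs N M n)) =
        fun n => ((fun t => g t (W n, F n) : Fin (R * D) → Bool), rs N M n) := by
      funext n
      rw [Prod.mk.injEq]
      exact ⟨funext fun t => hg t n, rfl⟩
    rw [h3]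
    exact h2
  have h4 := ent_submod (unif N) W F (fun n => rs N M n)
  have h5 := hF (ZMod N) (Fin L → Fin R → Bool) (ZMod M) (unif N) (D / L)
    (fun i n => wd (tup x (pos (shf L e i))) L n) (fun n => rs N M n)
  have h6 := end_sub (unif N) W (fun n => rs N M n)
  have h7 := ent_le_log_card (unif N) W
  have h8 : Real.log (Fintype.card (Fin R → Fin L → Bool)) = R * L * Real.log 2 := by
    rw [Fintype.card_fun, Fintype.card_fun, Fintype.card_bool, Fintype.card_fin, Fintype.card_fin]
    push_cast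
    rw [Real.log_pow, Real.log_pow]
    ring
  have h9 : ∀ i : Fin (D / L), hc (tup x (pos (shf L e i))) L M =
      ent (unif N) (fun n => (wd (tup x (pos (shf L e i))) L n, rs N M n)) -
        ent (unif N) (fun n => rs N M n) := by
    intro i
    rw [hZ, hc, dif_neg hM.ne']
  have h10 : hc x (R * D) M = ent (unif N) (fun n => (wd x (R * D) n, rs N M n)) -
      ent (unif N) (fun n => rs N M n) := by
    rw [hZ, hc, dif_neg hM.ne']
  rw [h10, Finset.sum_congr rfl fun i _ => h9 i]
  rw [h8] at h7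
  simp only [hFd] at h1 h4
  linarith

theorem pf_END (hU : T_UNI) (hF : T_FAM) : T_END := by
  intro N R D L M _ x hM hMN hD hL hd
  haveI : NeZero D := ⟨hD.ne'⟩
  have hDr : (0 : ℝ) < D := by exact_mod_cast hD
  have hp : (0 : ℝ) < (D : ℝ) ^ R := by positivity
  have h1 : ∑ _e : Fin R → Fin D, hc x (R * D) M ≤
      ∑ e : Fin R → Fin D, ((∑ i : Fin (D / L), hc (tup x (pos (shf L e i))) L M) +
        R * L * Real.log 2) :=
    Finset.sum_le_sum fun e _ => end_one hU hF x hM hMN hL hd e
  have hcard : ((univ : Finset (Fin R → Fin D)).card : ℝ) = (D : ℝ) ^ R := by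
    rw [Finset.card_univ, Fintype.card_fun, Fintype.card_fin, Fintype.card_fin]
    push_cast
    rfl
  have h2 : ∀ i : Fin (D / L), ∑ e : Fin R → Fin D, hc (tup x (pos (shf L e i))) L M =
      ∑ e : Fin R → Fin D, hc (tup x (pos e)) L M := by
    intro i
    exact Fintype.sum_equiv (Equiv.addRight (fun _ => Fin.ofNat D (i * L)))
      (fun e => hc (tup x (pos (shf L e i))) L M) (fun e => hc (tup x (pos e)) L M)
      (fun e => rfl)
  rw [Finset.sum_add_distrib, Finset.sum_comm, Finset.sum_congr rfl fun i _ => h2 i,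
    Finset.sum_const, Finset.sum_const, Finset.sum_const, nsmul_eq_mul, nsmul_eq_mul,
    nsmul_eq_mul, hcard, Finset.card_univ, Fintype.card_fin, Nat.cast_div hd (by
      exact_mod_cast hL.ne')] at h1
  have h3 : (D : ℝ) / L * avE R D (fun e => hc (tup x (pos e)) L M) =
      ((D : ℝ) / L * ∑ e : Fin R → Fin D, hc (tup x (pos e)) L M) / (D : ℝ) ^ R := by
    unfold avE
    ring
  rw [h3]
  have h4 : hc x (R * D) M = ((D : ℝ) ^ R * hc x (R * D) M) / (D : ℝ) ^ R := by
    field_simp
  rw [h4]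
  have h5 : ((D : ℝ) ^ R * hc x (R * D) M) / (D : ℝ) ^ R ≤
      ((D : ℝ) / L * ∑ e : Fin R → Fin D, hc (tup x (pos e)) L M +
        (D : ℝ) ^ R * (R * L * Real.log 2)) / (D : ℝ) ^ R :=
    div_le_div_of_nonneg_right h1 hp.le
  refine h5.trans (le_of_eq ?_)
  field_simp

end Pool.Agent.H69.ES
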